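import Mathlib
import Pool.Agent.H4.GS.Disc2

set_option autoImplicit false

/-!
# Green function level sets under circular symmetrisation: both singled-out cases fail

We disprove the inclusion `(D_lam)^* ⊆ (D^*)_lam` in each of the two cases singled out in the
question, `D^* = ℂ \ (-∞,0]` and `D^* = {|z| < 1} \ (-1,0]`, and for every position of the pole.
The domain `D` is obtained from `D^*` by moving the initial segment `[-ρ,0]` of the slit to the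
other side: `D = ℂ \ ((-∞,-ρ] ∪ [0,ρ])`, respectively `D = {|z| < 1} \ ((-1,-ρ] ∪ [0,ρ])`.

The definitions (`angMeas`, `circSymm`, `HasLogPole`, `IsGreen`, `levelSet`) are in
`Pool.Agent.H4.GS.Green`.
-/

open Set Filter Topology Metric InnerProductSpace MeasureTheory

namespace Pool.Agent.Results.MP_d9eea5_an.SingledOutCases

open Pool.Agent.H4.GS

/-- `Fails D a`: `D` is a domain containing `a`, both `D` and `D^*` possess a Green's function with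
pole `a`, and, whatever the Green's functions `g`, `gs` of `D`, `D^*` with pole `a` (they are unique
on the domains), there is a level `lam > 0` for which `(D_lam)^*` is not contained in
`(D^*)_lam`. -/
def Fails (D : Set ℂ) (a : ℂ) : Prop :=
  IsOpen D ∧ IsConnected D ∧ a ∈ D ∧
    (∃ g : ℂ → ℝ, IsGreen D a g) ∧ (∃ gs : ℂ → ℝ, IsGreen (circSymm D) a gs) ∧
    ∀ g gs : ℂ → ℝ, IsGreen D a g → IsGreen (circSymm D) a gs →
      ∃ lam : ℝ, 0 < lam ∧ ¬ circSymm (levelSet D a g lam) ⊆ levelSet (circSymm D) a gs lam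

/-- `Ω` with the initial segment of the slit moved to the other side:
`(Ω ∪ (-ρ,0)) \ [0,ρ]`. -/
def moved (Ω : Set ℂ) (ρ : ℝ) : Set ℂ :=
  (Ω ∪ {z | z.im = 0 ∧ -ρ < z.re ∧ z.re < 0}) \ {z | z.im = 0 ∧ 0 ≤ z.re ∧ z.re ≤ ρ}

lemma moved_plane {s : ℝ} (hs : 0 < s) : moved {z | ¬ (z.im = 0 ∧ z.re ≤ 0)} s =
    {z | ¬ (z.im = 0 ∧ (z.re ≤ -s ∨ (0 ≤ z.re ∧ z.re ≤ s)))} := by
  ext z
  simp only [moved, Set.mem_sdiff, mem_union, mem_ofPred_eq]
  constructor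
  · rintro ⟨h1, h2⟩ ⟨h3, h4 | h4⟩
    · rcases h1 with h1 | h1
      · exact h1 ⟨h3, by linarith⟩
      · linarith [h1.2.1]
    · exact h2 ⟨h3, h4⟩
  · intro h
    refine ⟨?_, fun h1 => h ⟨h1.1, Or.inr h1.2⟩⟩
    by_cases h1 : z.im = 0
    · by_cases h2 : z.re ≤ 0
      · right
        have h3 : ¬ z.re ≤ -s := fun h3 => h ⟨h1, Or.inl h3⟩
        have h4 : ¬ 0 ≤ z.re := fun h4 => h ⟨h1, Or.inr ⟨h4, by linarith⟩⟩
        exact ⟨h1, by linarith, by linarith⟩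
      · left; exact fun h3 => h2 h3.2
    · left; exact fun h3 => h1 h3.1

lemma moved_disc {s : ℝ} (hs : 0 < s) (hs1 : s < 1) :
    moved {z | ‖z‖ < 1 ∧ ¬ (z.im = 0 ∧ z.re ≤ 0)} s =
      {z | ‖z‖ < 1 ∧ ¬ (z.im = 0 ∧ (z.re ≤ -s ∨ (0 ≤ z.re ∧ z.re ≤ s)))} := by
  ext z
  simp only [moved, Set.mem_sdiff, mem_union, mem_ofPred_eq]
  constructor
  · rintro ⟨h1, h2⟩
    constructor
    · rcases h1 with h1 | ⟨h3, h4, h5⟩
      · exact h1.1
      · rw [re_eq h3, Complex.norm_real, Real.norm_eq_abs, abs_lt]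
        constructor <;> linarith
    · rintro ⟨h3, h4 | h4⟩
      · rcases h1 with h1 | h1
        · exact h1.2 ⟨h3, by linarith⟩
        · linarith [h1.2.1]
      · exact h2 ⟨h3, h4⟩
  · rintro ⟨hz, h⟩
    refine ⟨?_, fun h1 => h ⟨h1.1, Or.inr h1.2⟩⟩
    by_cases h1 : z.im = 0
    · by_cases h2 : z.re ≤ 0
      · right
        have h3 : ¬ z.re ≤ -s := fun h3 => h ⟨h1, Or.inl h3⟩
        have h4 : ¬ 0 ≤ z.re := fun h4 => h ⟨h1, Or.inr ⟨h4, by linarith⟩⟩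
        exact ⟨h1, by linarith, by linarith⟩
      · left; exact ⟨hz, fun h3 => h2 h3.2⟩
    · left; exact ⟨hz, fun h3 => h1 h3.1⟩

/-- **Q1 is false in both singled-out cases, for every pole.** Let `Ω` be `ℂ \ (-∞,0]` or
`{|z| < 1} \ (-1,0]`, and let `a > 0` be a point of `Ω`. There is `0 < ρ < a` such that the domain
`D = (Ω ∪ (-ρ,0)) \ [0,ρ]` satisfies `D^* = Ω`, and the inclusion `(D_lam)^* ⊆ (D^*)_lam` fails
for `D` and the pole `a`, for some `lam > 0`. -/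
theorem result (Ω : Set ℂ)
    (hΩ : Ω = {z | ¬ (z.im = 0 ∧ z.re ≤ 0)} ∨ Ω = {z | ‖z‖ < 1 ∧ ¬ (z.im = 0 ∧ z.re ≤ 0)})
    (a : ℝ) (ha : 0 < a) (haΩ : (a : ℂ) ∈ Ω) :
    ∃ ρ : ℝ, 0 < ρ ∧ ρ < a ∧ circSymm (moved Ω ρ) = Ω ∧ Fails (moved Ω ρ) (a : ℂ) := by
  rcases hΩ with hΩ | hΩ
  · have h2 : √2 ^ 2 = 2 := Real.sq_sqrt (by norm_num)
    have h1 : 1 < √2 := by
      rw [Real.lt_sqrt (by norm_num)]; norm_num
    have h3 : √2 < 2 := by
      rw [Real.sqrt_lt' (by norm_num)]; norm_num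
    set s : ℝ := (√2 - 1) * a with hs
    have hs0 : 0 < s := by
      rw [hs]; exact mul_pos (by linarith) ha
    have hsa : s < a := by
      rw [hs]; nlinarith
    have hka : kap * s = a := by
      rw [hs, kap]
      linear_combination a * h2
    have hD := moved_plane hs0
    rw [hΩ]
    refine ⟨s, hs0, hsa, ?_⟩
    rw [hD]
    set D : Set ℂ := {z | ¬ (z.im = 0 ∧ (z.re ≤ -s ∨ (0 ≤ z.re ∧ z.re ≤ s)))} with hDdef
    have hDs : circSymm D = {z | ¬ (z.im = 0 ∧ z.re ≤ 0)} := symm1 hs0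
    have e1 : D = dom univ (N1 s) (M1 s) := by rw [dom1_eq hs0]
    have e2 : circSymm D = dom univ Ns1 (Ms1 (kap * s)) := by
      rw [hDs, doms1_eq (by rw [hka]; exact ha), slit_desc]
    have hd := data1 hs0
    have hds := datas1 (a := kap * s) (by rw [hka]; exact ha)
    have hf := plane_failure hs0
    refine ⟨hDs, ?_, ?_, ?_, ?_, ?_, ?_⟩
    · rw [e1]; exact hd.isOpen
    · exact conn1 hs0
    · rw [e1, ← hka]; exact hd.mem
    · rw [e1, ← hka]; exact ⟨_, hd.isGreen⟩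
    · rw [e2, ← hka]; exact ⟨_, hds.isGreen⟩
    · rw [e2, e1, ← hka]; exact hf
  · have ha1 : a < 1 := by
      rw [hΩ] at haΩ
      have := haΩ.1
      rwa [Complex.norm_real, Real.norm_eq_abs, abs_of_pos ha] at this
    obtain ⟨ρ, p, q, h⟩ := par_exists ha ha1
    have hρ1 : ρ < 1 := lt_trans h.ρa ha1
    have hD := moved_disc h.ρ0 hρ1
    rw [hΩ]
    refine ⟨ρ, h.ρ0, h.ρa, ?_⟩
    rw [hD]
    set D : Set ℂ := {z | ‖z‖ < 1 ∧ ¬ (z.im = 0 ∧ (z.re ≤ -ρ ∨ (0 ≤ z.re ∧ z.re ≤ ρ)))} with hDdef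
    have hDs : circSymm D = {z | ‖z‖ < 1 ∧ ¬ (z.im = 0 ∧ z.re ≤ 0)} := symm2 h.ρ0
    have e1 : D = dom {z | ‖z‖ < 1} (N2 ρ p) (M2 ρ q) := by rw [h.dom_eq]
    have e2 : circSymm D = dom {z | ‖z‖ < 1} (Ns2 a) (Ms2 a) := by
      rw [hDs, doms2_eq ha ha1]
    have hd := h.data
    have hds := datas2 ha ha1
    refine ⟨hDs, ?_, ?_, ?_, ?_, ?_, ?_⟩
    · rw [e1]; exact hd.isOpen
    · exact conn2 h.ρ0 hρ1
    · rw [e1]; exact hd.mem
    · rw [e1]; exact ⟨_, hd.isGreen⟩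
    · rw [e2]; exact ⟨_, hds.isGreen⟩
    · rw [e2, e1]; exact h.disc_failure

end Pool.Agent.Results.MP_d9eea5_an.SingledOutCases
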